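import Mathlib
import Pool.Agent.D0H51.DZ.Ser

/-!
# Multiple zeta values as sums over strictly decreasing tuples
-/

set_option autoImplicit false

namespace Pool.Agent.D0H51.DR

open Finset

/-- the strictly decreasing tuples with entries in `[1, m - 1]` -/
def DF : (R : ℕ) → ℕ → Finset (Fin R → ℕ)
  | 0, _ => {fun i => i.elim0}
  | R + 1, m => (Ico 1 m).biUnion fun j =>
      (DF R j).image fun y => (Fin.cons j y : Fin (R + 1) → ℕ)

/-- truncated multiple zeta values -/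
noncomputable def trF : (R : ℕ) → (Fin R → ℕ) → ℕ → ℝ
  | 0, _, _ => 1
  | R + 1, s, m => ∑ j ∈ Ico 1 m, trF R (fun k => s k.succ) j / (j : ℝ) ^ (s 0)

/-- the unit of a tuple -/
noncomputable def un {R : ℕ} (s x : Fin R → ℕ) : ℝ := (∏ k, (x k : ℝ) ^ (s k))⁻¹

lemma mem_DF_succ {R m : ℕ} {x : Fin (R + 1) → ℕ} :
    x ∈ DF (R + 1) m ↔ 1 ≤ x 0 ∧ x 0 < m ∧ (fun k => x (Fin.succ k)) ∈ DF R (x 0) := by
  rw [DF, mem_biUnion]
  constructor
  · rintro ⟨j, hj, hx⟩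
    rw [mem_image] at hx
    obtain ⟨y, hy, rfl⟩ := hx
    rw [mem_Ico] at hj
    simp only [Fin.cons_zero, Fin.cons_succ]
    exact ⟨hj.1, hj.2, hy⟩
  · rintro ⟨h1, h2, h3⟩
    refine ⟨x 0, mem_Ico.2 ⟨h1, h2⟩, mem_image.2 ⟨_, h3, ?_⟩⟩
    exact Fin.cons_self_tail x

lemma un_cons {R : ℕ} (s : Fin (R + 1) → ℕ) (x : Fin (R + 1) → ℕ) :
    un s x = un (fun k => s (Fin.succ k)) (fun k => x (Fin.succ k)) / (x 0 : ℝ) ^ (s 0) := by
  unfold un
  rw [Fin.prod_univ_succ, mul_inv, div_eq_mul_inv, mul_comm]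

lemma trF_eq : ∀ (R : ℕ) (s : Fin R → ℕ) (m : ℕ), trF R s m = ∑ x ∈ DF R m, un s x := by
  intro R
  induction R with
  | zero =>
    intro s m
    rw [trF, DF, sum_singleton, un]
    simp
  | succ R ih =>
    intro s m
    rw [trF, DF, sum_biUnion]
    · refine sum_congr rfl fun j _ => ?_
      rw [sum_image]
      · rw [ih, sum_div]
        refine sum_congr rfl fun y _ => ?_
        rw [un_cons]
        simp only [Fin.cons_zero, Fin.cons_succ]
      · intro y _ y' _ h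
        exact (Fin.cons_injective2 (α := fun _ => ℕ) h).2
    · intro j _ j' _ hjj'
      rw [Function.onFun, disjoint_left]
      intro x hx hx'
      rw [mem_image] at hx hx'
      obtain ⟨y, _, rfl⟩ := hx
      obtain ⟨y', _, h⟩ := hx'
      exact hjj' (Fin.cons_injective2 (α := fun _ => ℕ) h).1.symm

lemma DF_le : ∀ {R m : ℕ} {x : Fin R → ℕ}, 1 ≤ m → x ∈ DF R m → R + 1 ≤ m := by
  intro R
  induction R with
  | zero => intro m x hm _; omega
  | succ R ih =>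
    intro m x _ hx
    rw [mem_DF_succ] at hx
    have := ih hx.1 hx.2.2
    omega

lemma DF_lt : ∀ {R m : ℕ} {x : Fin R → ℕ}, x ∈ DF R m → ∀ k, x k < m := by
  intro R
  induction R with
  | zero => intro m x _ k; exact k.elim0
  | succ R ih =>
    intro m x hx k
    rw [mem_DF_succ] at hx
    refine Fin.cases hx.2.1 (fun i => ?_) k
    have := ih hx.2.2 i
    omega

lemma DF_ge : ∀ {R m : ℕ} {x : Fin R → ℕ}, x ∈ DF R m → ∀ k : Fin R, R - k ≤ x k := by
  intro R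
  induction R with
  | zero => intro m x _ k; exact k.elim0
  | succ R ih =>
    intro m x hx k
    rw [mem_DF_succ] at hx
    refine Fin.cases ?_ (fun i => ?_) k
    · have := DF_le hx.1 hx.2.2
      simp only [Fin.val_zero]
      omega
    · have := ih hx.2.2 i
      simp only [Fin.val_succ] at this ⊢
      omega

lemma DF_pos {R m : ℕ} {x : Fin R → ℕ} (hx : x ∈ DF R m) (k : Fin R) : 1 ≤ x k := by
  have h1 := DF_ge hx k
  have h2 := k.isLt
  omega

lemma mono_DF : ∀ {R m m' : ℕ}, m ≤ m' → DF R m ⊆ DF R m' := by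
  intro R
  cases R with
  | zero => intro m m' _; rw [DF, DF]
  | succ R =>
    intro m m' h x hx
    rw [mem_DF_succ] at hx ⊢
    exact ⟨hx.1, by omega, hx.2.2⟩

/-- the least tuple -/
lemma min_mem : ∀ (R m : ℕ), R + 1 ≤ m → (fun k : Fin R => R - (k : ℕ)) ∈ DF R m := by
  intro R
  induction R with
  | zero =>
    intro m _
    rw [DF, mem_singleton]
    funext k
    exact k.elim0
  | succ R ih =>
    intro m hm
    rw [mem_DF_succ]
    simp only [Fin.val_zero, Fin.val_succ]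
    refine ⟨by omega, by omega, ?_⟩
    have h1 := ih (R + 1) le_rfl
    have h2 : (fun k : Fin R => R + 1 - ((k : ℕ) + 1)) = fun k : Fin R => R - (k : ℕ) := by
      funext k
      omega
    rw [h2, Nat.sub_zero]
    exact h1

lemma un_nonneg {R : ℕ} (s x : Fin R → ℕ) : 0 ≤ un s x := by
  unfold un
  positivity

lemma trF_nonneg (R : ℕ) (s : Fin R → ℕ) (m : ℕ) : 0 ≤ trF R s m := by
  rw [trF_eq]
  exact sum_nonneg fun x _ => un_nonneg s x

/-- the constants -/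
def CC : ℕ → ℕ
  | 0 => 1
  | R + 1 => 2 * (R + 1) ^ 2 * CC R

lemma CC_pos : ∀ R, 0 < CC R := by
  intro R
  induction R with
  | zero => rw [CC]; norm_num
  | succ R ih => rw [CC]; positivity

/-- the unit of the least tuple -/
noncomputable def vv (R : ℕ) (s : Fin R → ℕ) : ℝ := un s fun k => R - (k : ℕ)

lemma vv_succ (R : ℕ) (s : Fin (R + 1) → ℕ) :
    vv (R + 1) s = vv R (fun k => s k.succ) / ((R + 1 : ℕ) : ℝ) ^ (s 0) := by
  unfold vv
  rw [un_cons]
  simp only [Fin.val_zero, Fin.val_succ, Nat.sub_zero]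
  congr 2
  funext k
  omega

lemma vv_pos (R : ℕ) (s : Fin R → ℕ) : 0 < vv R s := by
  unfold vv un
  apply inv_pos.2
  refine prod_pos fun k _ => pow_pos ?_ _
  have := k.isLt
  have h : 0 < R - (k : ℕ) := by omega
  exact_mod_cast h

lemma vv_anti {R : ℕ} {s s' : Fin R → ℕ} (h : ∀ k, s k ≤ s' k) : vv R s' ≤ vv R s := by
  unfold vv un
  apply inv_anti₀
  · refine prod_pos fun k _ => pow_pos ?_ _
    have := k.isLt
    have h : 0 < R - (k : ℕ) := by omega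
    exact_mod_cast h
  · refine prod_le_prod (fun k _ => by positivity) fun k _ => ?_
    apply pow_le_pow_right₀ _ (h k)
    have := k.isLt
    have h : 1 ≤ R - (k : ℕ) := by omega
    exact_mod_cast h

lemma pow_cmp {a j s : ℕ} (ha : 1 ≤ a) (haj : a ≤ j) (hs : 2 ≤ s) :
    1 / (j : ℝ) ^ s ≤ (a : ℝ) ^ 2 / (a : ℝ) ^ s * (1 / (j : ℝ) ^ 2) := by
  obtain ⟨r, rfl⟩ := Nat.exists_eq_add_of_le hs
  have ha0 : (0 : ℝ) < a := by exact_mod_cast ha
  have hj0 : (0 : ℝ) < j := by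
    have : 0 < j := by omega
    exact_mod_cast this
  have e2 : (a : ℝ) ^ 2 / (a : ℝ) ^ (2 + r) * (1 / (j : ℝ) ^ 2) = 1 / ((j : ℝ) ^ 2 * (a : ℝ) ^ r) := by
    rw [pow_add]; field_simp
  rw [e2, pow_add]
  apply one_div_le_one_div_of_le (by positivity)
  gcongr

lemma sum_sq_le (m : ℕ) : ∑ j ∈ Ico 1 m, 1 / (j : ℝ) ^ 2 ≤ 2 := by
  have h1 : ∑ j ∈ Ico 1 m, 1 / (j : ℝ) ^ 2 ≤ ∑ i ∈ range m, 1 / ((i : ℝ) + 1) ^ 2 := by
    rw [sum_Ico_eq_sum_range]
    have h2 : ∀ i : ℕ, 1 / (((1 + i : ℕ)) : ℝ) ^ 2 = 1 / ((i : ℝ) + 1) ^ 2 := by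
      intro i
      push_cast
      rw [add_comm]
    rw [sum_congr rfl fun i _ => h2 i]
    refine sum_le_sum_of_subset_of_nonneg (range_mono (by omega)) fun i _ _ => by positivity
  refine h1.trans ?_
  exact (DZ.summable_sq.sum_le_tsum _ fun i _ => by positivity).trans DZ.tsum_sq_le

lemma trF_le : ∀ (R : ℕ) (s : Fin R → ℕ), (∀ k, 2 ≤ s k) → ∀ m, trF R s m ≤ CC R * vv R s := by
  intro R
  induction R with
  | zero =>
    intro s _ m
    rw [trF, CC, vv, un]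
    simp
  | succ R ih =>
    intro s hs m
    rw [trF, vv_succ, CC]
    have h1 : ∀ j ∈ Ico 1 m, trF R (fun k => s k.succ) j / (j : ℝ) ^ (s 0) ≤
        (CC R * vv R (fun k => s k.succ)) * (((R + 1 : ℕ) : ℝ) ^ 2 / ((R + 1 : ℕ) : ℝ) ^ (s 0)) *
          (1 / (j : ℝ) ^ 2) := by
      intro j hj
      rw [mem_Ico] at hj
      have hj0 : (0 : ℝ) < j := by exact_mod_cast hj.1
      have hv := vv_pos R (fun k => s k.succ)
      have hC : (0 : ℝ) < CC R := by exact_mod_cast CC_pos R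
      by_cases hjR : R + 1 ≤ j
      · have h2 := ih (fun k => s k.succ) (fun k => hs _) j
        have h3 := pow_cmp (a := R + 1) (j := j) (s := s 0) (by omega) hjR (hs 0)
        have h4 : (0 : ℝ) ≤ 1 / (j : ℝ) ^ (s 0) := by positivity
        calc trF R (fun k => s k.succ) j / (j : ℝ) ^ (s 0)
            = trF R (fun k => s k.succ) j * (1 / (j : ℝ) ^ (s 0)) := by ring
          _ ≤ (CC R * vv R (fun k => s k.succ)) * (1 / (j : ℝ) ^ (s 0)) := by gcongr
          _ ≤ (CC R * vv R (fun k => s k.succ)) *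
              (((R + 1 : ℕ) : ℝ) ^ 2 / ((R + 1 : ℕ) : ℝ) ^ (s 0) * (1 / (j : ℝ) ^ 2)) := by gcongr
          _ = _ := by ring
      · have h2 : trF R (fun k => s k.succ) j = 0 := by
          rw [trF_eq]
          apply sum_eq_zero
          intro x hx
          exact absurd (DF_le hj.1 hx) (by omega)
        rw [h2, zero_div]
        positivity
    refine (sum_le_sum h1).trans ?_
    rw [← mul_sum]
    have hv := vv_pos R (fun k => s k.succ)
    have h3 := sum_sq_le m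
    calc (CC R * vv R (fun k => s k.succ)) * (((R + 1 : ℕ) : ℝ) ^ 2 / ((R + 1 : ℕ) : ℝ) ^ (s 0)) *
          ∑ j ∈ Ico 1 m, 1 / (j : ℝ) ^ 2
        ≤ (CC R * vv R (fun k => s k.succ)) * (((R + 1 : ℕ) : ℝ) ^ 2 / ((R + 1 : ℕ) : ℝ) ^ (s 0)) *
          2 := by gcongr
      _ = _ := by
          push_cast
          ring

/-- the multiple zeta value of depth `R + 1` -/
noncomputable def mzF (R : ℕ) (s : Fin (R + 1) → ℕ) : ℝ :=
  ∑' m : ℕ, trF R (fun k => s k.succ) (m + 1) / ((m + 1 : ℕ) : ℝ) ^ (s 0)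

lemma tail_le {R : ℕ} {s : Fin (R + 1) → ℕ} (hs : ∀ k, 2 ≤ s k) (M m : ℕ) :
    trF R (fun k => s k.succ) (m + M + 1) / ((m + M + 1 : ℕ) : ℝ) ^ (s 0) ≤
      (CC R * vv R (fun k => s k.succ)) * (((M + 1 : ℕ) : ℝ) ^ 2 / ((M + 1 : ℕ) : ℝ) ^ (s 0)) *
        (1 / ((m : ℝ) + 1) ^ 2) := by
  have h2 := trF_le R (fun k => s k.succ) (fun k => hs _) (m + M + 1)
  have h3 := pow_cmp (a := M + 1) (j := m + M + 1) (s := s 0) (by omega) (by omega) (hs 0)
  have hv := vv_pos R (fun k => s k.succ)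
  have h5 : (1 : ℝ) / ((m + M + 1 : ℕ) : ℝ) ^ 2 ≤ 1 / ((m : ℝ) + 1) ^ 2 := by
    apply one_div_le_one_div_of_le (by positivity)
    gcongr
    push_cast
    linarith [Nat.cast_nonneg (α := ℝ) M]
  calc trF R (fun k => s k.succ) (m + M + 1) / ((m + M + 1 : ℕ) : ℝ) ^ (s 0)
      = trF R (fun k => s k.succ) (m + M + 1) * (1 / ((m + M + 1 : ℕ) : ℝ) ^ (s 0)) := by ring
    _ ≤ (CC R * vv R (fun k => s k.succ)) * (1 / ((m + M + 1 : ℕ) : ℝ) ^ (s 0)) := by gcongr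
    _ ≤ (CC R * vv R (fun k => s k.succ)) *
        (((M + 1 : ℕ) : ℝ) ^ 2 / ((M + 1 : ℕ) : ℝ) ^ (s 0) * (1 / ((m + M + 1 : ℕ) : ℝ) ^ 2)) := by
          gcongr
    _ ≤ (CC R * vv R (fun k => s k.succ)) *
        (((M + 1 : ℕ) : ℝ) ^ 2 / ((M + 1 : ℕ) : ℝ) ^ (s 0) * (1 / ((m : ℝ) + 1) ^ 2)) := by
          gcongr
    _ = _ := by ring

lemma summable_mzF {R : ℕ} {s : Fin (R + 1) → ℕ} (hs : ∀ k, 2 ≤ s k) :
    Summable fun m : ℕ => trF R (fun k => s k.succ) (m + 1) / ((m + 1 : ℕ) : ℝ) ^ (s 0) := by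
  refine Summable.of_nonneg_of_le (fun m => ?_) (fun m => ?_)
    (DZ.summable_sq.mul_left ((CC R * vv R (fun k => s k.succ)) *
      (((0 + 1 : ℕ) : ℝ) ^ 2 / ((0 + 1 : ℕ) : ℝ) ^ (s 0))))
  · exact div_nonneg (trF_nonneg _ _ _) (by positivity)
  · exact tail_le hs 0 m

/-- the multiple zeta value and its truncation -/
lemma trunc_err {R : ℕ} {s : Fin (R + 1) → ℕ} (hs : ∀ k, 2 ≤ s k) (M : ℕ) :
    |mzF R s - ∑ x ∈ DF (R + 1) (M + 1), un s x| ≤
      2 * CC R * vv R (fun k => s k.succ) *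
        (((M : ℝ) + 1) ^ 2 / ((M : ℝ) + 1) ^ (s 0)) := by
  have hsum := summable_mzF hs
  have h0 : ∑ x ∈ DF (R + 1) (M + 1), un s x =
      ∑ m ∈ range M, trF R (fun k => s k.succ) (m + 1) / ((m + 1 : ℕ) : ℝ) ^ (s 0) := by
    rw [← trF_eq, trF, sum_Ico_eq_sum_range]
    simp only [Nat.add_sub_cancel]
    refine sum_congr rfl fun m _ => ?_
    rw [add_comm 1 m]
  unfold mzF
  rw [h0, ← hsum.sum_add_tsum_nat_add M, add_sub_cancel_left]
  have h2 : Summable fun m : ℕ => (CC R * vv R (fun k => s k.succ)) *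
      (((M + 1 : ℕ) : ℝ) ^ 2 / ((M + 1 : ℕ) : ℝ) ^ (s 0)) * (1 / ((m : ℝ) + 1) ^ 2) :=
    DZ.summable_sq.mul_left _
  have h4 := tsum_of_norm_bounded h2.hasSum
    (f := fun m : ℕ => trF R (fun k => s k.succ) (m + M + 1) / ((m + M + 1 : ℕ) : ℝ) ^ (s 0))
    (fun m => by
      rw [Real.norm_eq_abs, abs_of_nonneg (div_nonneg (trF_nonneg _ _ _) (by positivity))]
      exact tail_le hs M m)
  rw [Real.norm_eq_abs] at h4
  refine h4.trans ?_
  rw [tsum_mul_left]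
  have h5 := DZ.tsum_sq_le
  have hv := vv_pos R (fun k => s k.succ)
  calc (CC R * vv R (fun k => s k.succ)) * (((M + 1 : ℕ) : ℝ) ^ 2 / ((M + 1 : ℕ) : ℝ) ^ (s 0)) *
        ∑' m : ℕ, 1 / ((m : ℝ) + 1) ^ 2
      ≤ (CC R * vv R (fun k => s k.succ)) *
        (((M + 1 : ℕ) : ℝ) ^ 2 / ((M + 1 : ℕ) : ℝ) ^ (s 0)) * 2 := by gcongr
    _ = _ := by
        push_cast
        ring

end Pool.Agent.D0H51.DR
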