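import Mathlib
import Pool.Agent.D0H51.DR.Tup
import Pool.Agent.D0H51.DZ.Mid

/-!
# The sum over the tuples up to a prime number (subspace theorem)
-/

set_option autoImplicit false

namespace Pool.Agent.D0H51.DR

open Finset Filter Topology Pool.Agent.TH932.Germs Pool.Agent.TH551.SU Pool.Agent.Y724.Vj
open Pool.Agent.D0H51.DZ (ev_small np bp bp_prime bp_inj prod_bp gm_sum lbg)

/-- the coefficient of the unit of a tuple -/
noncomputable def fv {R : ℕ} (W : ℕ) (c : ℕ → ℤ) (o : ℕ → Fin R → ℕ) (x : Fin R → ℕ) : ℝ :=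
  ∑ i ∈ range (W + 1), (c i : ℝ) * un (o i) x

/-- rational version of `un` -/
def uQ {R : ℕ} (s x : Fin R → ℕ) : ℚ := (∏ k, (x k : ℚ) ^ (s k))⁻¹

/-- rational version of `fv` -/
def fQ {R : ℕ} (W : ℕ) (c : ℕ → ℤ) (o : ℕ → Fin R → ℕ) (x : Fin R → ℕ) : ℚ :=
  ∑ i ∈ range (W + 1), (c i : ℚ) * uQ (o i) x

lemma un_cast {R : ℕ} (s x : Fin R → ℕ) : un s x = ((uQ s x : ℚ) : ℝ) := by
  unfold un uQ
  push_cast
  rfl

lemma fv_cast {R : ℕ} (W : ℕ) (c : ℕ → ℤ) (o : ℕ → Fin R → ℕ) (x : Fin R → ℕ) :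
    fv W c o x = ((fQ W c o x : ℚ) : ℝ) := by
  unfold fv fQ
  push_cast
  refine sum_congr rfl fun i _ => ?_
  rw [un_cast]

lemma un_le_one {R : ℕ} (s : Fin R → ℕ) {x : Fin R → ℕ} (hx : ∀ k, 1 ≤ x k) : un s x ≤ 1 := by
  unfold un
  apply inv_le_one_of_one_le₀
  have h : (1 : ℝ) = ∏ _k : Fin R, (1 : ℝ) := by simp
  rw [h]
  refine prod_le_prod (fun k _ => zero_le_one) fun k _ => ?_
  exact one_le_pow₀ (by exact_mod_cast hx k)

lemma fv_le {R W : ℕ} {c : ℕ → ℤ} {B : ℝ} (hc : ∀ i ≤ W, |(c i : ℝ)| ≤ B) (o : ℕ → Fin R → ℕ)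
    {x : Fin R → ℕ} (hx : ∀ k, 1 ≤ x k) : |fv W c o x| ≤ B * (W + 1) := by
  have hB : 0 ≤ B := (abs_nonneg _).trans (hc 0 (Nat.zero_le _))
  unfold fv
  refine (abs_sum_le_sum_abs _ _).trans ?_
  have h1 : ∀ i ∈ range (W + 1), |(c i : ℝ) * un (o i) x| ≤ B := by
    intro i hi
    rw [mem_range] at hi
    rw [abs_mul, abs_of_nonneg (un_nonneg _ _)]
    calc |(c i : ℝ)| * un (o i) x ≤ B * 1 :=
          mul_le_mul (hc i (by omega)) (un_le_one _ hx) (un_nonneg _ _) hB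
      _ = B := mul_one _
  refine (sum_le_sum h1).trans (le_of_eq ?_)
  rw [sum_const, card_range, nsmul_eq_mul]
  push_cast
  ring

/-- the numerator -/
def An {R : ℕ} (W : ℕ) (c : ℕ → ℤ) (o : ℕ → Fin R → ℕ) (x : Fin R → ℕ) : ℤ :=
  ∑ i ∈ range (W + 1), c i * ∏ k, (x k : ℤ) ^ (W - o i k)

lemma An_eq {R W : ℕ} (c : ℕ → ℤ) {o : ℕ → Fin R → ℕ} (ho : ∀ i ≤ W, ∀ k, o i k ≤ W)
    {x : Fin R → ℕ} (hx : ∀ k, 1 ≤ x k) :
    (An W c o x : ℚ) = fQ W c o x * ((∏ k, (x k : ℤ)) ^ W : ℤ) := by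
  unfold An fQ uQ
  rw [sum_mul]
  push_cast
  refine sum_congr rfl fun i hi => ?_
  rw [mem_range] at hi
  rw [mul_assoc]
  congr 1
  rw [← prod_pow, ← Finset.prod_inv_distrib, ← prod_mul_distrib]
  refine prod_congr rfl fun k _ => ?_
  have hx0 : (x k : ℚ) ≠ 0 := by
    have := hx k
    have : x k ≠ 0 := by omega
    exact_mod_cast this
  have h1 : (x k : ℚ) ^ W = (x k : ℚ) ^ (o i k) * (x k : ℚ) ^ (W - o i k) := by
    rw [← pow_add]
    congr 1
    have := ho i (by omega) k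
    omega
  rw [h1]
  field_simp

lemma isSU_uQ {R l : ℕ} {x : Fin R → ℕ} (hx : ∀ k, 1 ≤ x k ∧ x k ≤ l) (s : Fin R → ℕ) :
    IsSU (bp l) (uQ s x) := by
  refine ⟨1, fun v => -((∑ k, s k * (x k).factorization (bp l v) : ℕ) : ℤ), Or.inl rfl, ?_⟩
  unfold uQ
  rw [Int.cast_one, one_mul]
  have h1 : ∀ k, (x k : ℚ) ^ (s k) = ∏ v, (bp l v : ℚ) ^ (s k * (x k).factorization (bp l v)) := by
    intro k
    conv_lhs => rw [← prod_bp (l := l) (m := x k) (hx k).1 (hx k).2]
    rw [← Finset.prod_pow]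
    refine Finset.prod_congr rfl fun v _ => ?_
    rw [pow_mul']
  rw [Finset.prod_congr rfl fun k _ => h1 k, Finset.prod_comm, ← Finset.prod_inv_distrib]
  refine Finset.prod_congr rfl fun v _ => ?_
  rw [zpow_neg, zpow_natCast, Finset.prod_pow_eq_pow_sum]

/-- the tuple `(l, R, R - 1, ..., 1)` -/
def x0 (R l : ℕ) : Fin (R + 1) → ℕ := Fin.cons l fun k : Fin R => R - (k : ℕ)

lemma x0_mem {R l : ℕ} (h : R + 1 ≤ l) : x0 R l ∈ DF (R + 1) (l + 1) := by
  rw [mem_DF_succ]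
  unfold x0
  simp only [Fin.cons_zero, Fin.cons_succ]
  exact ⟨by omega, by omega, min_mem R l h⟩

lemma un_x0 (R l : ℕ) (s : Fin (R + 1) → ℕ) :
    un s (x0 R l) = vv R (fun k => s k.succ) / (l : ℝ) ^ (s 0) := by
  rw [un_cons]
  unfold x0 vv
  simp only [Fin.cons_zero, Fin.cons_succ]

/-- larger tuples have much larger products -/
lemma prod_gap {R N : ℕ} {s y : Fin R → ℕ} (hs : ∀ k, N ≤ s k) (hy : ∀ k : Fin R, R - (k : ℕ) ≤ y k)
    {k1 : Fin R} (hk1 : y k1 ≠ R - (k1 : ℕ)) :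
    (1 + 1 / (R : ℝ)) ^ N * ∏ k : Fin R, ((R - (k : ℕ) : ℕ) : ℝ) ^ (s k) ≤
      ∏ k, (y k : ℝ) ^ (s k) := by
  have hR : 1 ≤ R := by
    have := k1.isLt
    omega
  have hR0 : (0 : ℝ) < R := by exact_mod_cast hR
  have h1 : (1 + 1 / (R : ℝ)) ^ N = ∏ k : Fin R, (if k = k1 then (1 + 1 / (R : ℝ)) ^ N else 1) := by
    rw [prod_ite_eq' univ k1 (fun _ => (1 + 1 / (R : ℝ)) ^ N), if_pos (mem_univ _)]
  rw [h1, ← prod_mul_distrib]
  refine prod_le_prod (fun k _ => ?_) fun k _ => ?_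
  · split_ifs <;> positivity
  · have h2 := hy k
    have h3 : ((R - (k : ℕ) : ℕ) : ℝ) ≤ y k := by exact_mod_cast h2
    split_ifs with h
    · subst h
      have h4 : ((R - (k : ℕ) : ℕ) : ℝ) + 1 ≤ y k := by
        have : R - (k : ℕ) + 1 ≤ y k := by omega
        exact_mod_cast this
      have h5 : (1 + 1 / (R : ℝ)) * ((R - (k : ℕ) : ℕ) : ℝ) ≤ y k := by
        have h6 : ((R - (k : ℕ) : ℕ) : ℝ) ≤ R := by
          have : R - (k : ℕ) ≤ R := by omega
          exact_mod_cast this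
        have h7 : 1 / (R : ℝ) * ((R - (k : ℕ) : ℕ) : ℝ) ≤ 1 := by
          rw [one_div, inv_mul_le_iff₀ hR0, mul_one]
          exact h6
        linarith
      have h8 : (1 : ℝ) ≤ 1 + 1 / (R : ℝ) := by
        have : 0 < 1 / (R : ℝ) := by positivity
        linarith
      calc (1 + 1 / (R : ℝ)) ^ N * ((R - (k : ℕ) : ℕ) : ℝ) ^ (s k)
          ≤ (1 + 1 / (R : ℝ)) ^ (s k) * ((R - (k : ℕ) : ℕ) : ℝ) ^ (s k) := by
            gcongr
            exact hs k
        _ = ((1 + 1 / (R : ℝ)) * ((R - (k : ℕ) : ℕ) : ℝ)) ^ (s k) := by rw [mul_pow]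
        _ ≤ _ := by gcongr
    · rw [one_mul]
      gcongr

theorem low_seq (R l : ℕ) (hl : l.Prime) (hRl : R + 1 ≤ l) (B K ε : ℝ) (hε : 0 < ε) (hK : 0 ≤ K)
    (N W : ℕ → ℕ) (s : ℕ → Fin (R + 1) → ℕ) (c : ℕ → ℕ → ℤ) (o : ℕ → ℕ → Fin (R + 1) → ℕ)
    (hN : Tendsto (fun j => (N j : ℝ)) atTop atTop)
    (h1 : ∀ j k, N j ≤ s j k) (h2 : ∀ j k, (s j k : ℝ) ≤ K * N j)
    (h3 : ∀ j, (W j : ℝ) * (j + 1) ≤ N j) (h4 : ∀ j, ∀ i ≤ W j, |(c j i : ℝ)| ≤ B)
    (h5 : ∀ j, ∀ i ≤ W j, ∀ k, o j i k ≤ W j) (h6 : ∀ j, fv (W j) (c j) (o j) (x0 R l) ≠ 0) :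
    ∀ᶠ j in (UU : Filter ℕ), un (s j) (x0 R l) ≤
      |∑ x ∈ DF (R + 1) (l + 1), fv (W j) (c j) (o j) x * un (s j) x| * Real.exp (ε * N j) := by
  classical
  have hl2 : 2 ≤ l := hl.two_le
  have hl0 : (0 : ℝ) < l := by exact_mod_cast hl.pos
  have hB : 0 ≤ B := (abs_nonneg _).trans (h4 0 0 (Nat.zero_le _))
  have hlog : 0 < Real.log l := Real.log_pos (by exact_mod_cast (by omega : 1 < l))
  have hmem : ∀ x ∈ DF (R + 1) (l + 1), ∀ k, 1 ≤ x k ∧ x k ≤ l := by
    intro x hx k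
    have e1 := DF_lt hx k
    exact ⟨DF_pos hx k, by omega⟩
  -- the field of negligible germs
  have hNl : ∀ m : ℕ, 1 ≤ m → Negl (fun j => (N j : ℝ)) (fun j => ((m : ℤ) ^ (W j))) := by
    intro m hm1 δ hδ
    have hev : ∀ᶠ j : ℕ in atTop, Real.log m / δ ≤ (j : ℝ) + 1 := by
      obtain ⟨J, hJ⟩ := exists_nat_ge (Real.log m / δ)
      filter_upwards [eventually_ge_atTop J] with j hj
      have : (J : ℝ) ≤ j := by exact_mod_cast hj
      linarith
    filter_upwards [ev_of_atTop hev] with j hj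
    push_cast
    rw [abs_of_nonneg (by positivity)]
    have hm0 : (0 : ℝ) < m := by exact_mod_cast hm1
    rw [← Real.exp_log (pow_pos hm0 _), Real.log_pow]
    apply Real.exp_le_exp.2
    rw [div_le_iff₀ hδ] at hj
    have e2 : (W j : ℝ) * Real.log m ≤ W j * ((j + 1) * δ) := by gcongr
    have e3 := h3 j
    nlinarith
  have hX : ∀ x ∈ DF (R + 1) (l + 1), 1 ≤ ∏ k, x k := by
    intro x hx
    exact Nat.one_le_iff_ne_zero.2 (prod_ne_zero_iff.2 fun k _ => by
      have := (hmem x hx k).1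
      omega)
  have hXZ : ∀ x : Fin (R + 1) → ℕ, (∏ k, (x k : ℤ)) = ((∏ k, x k : ℕ) : ℤ) := by
    intro x
    push_cast
    rfl
  have hcK : ∀ x ∈ DF (R + 1) (l + 1), gm (fun j => fQ (W j) (c j) (o j) x) ∈
      KK (fun j => (N j : ℝ)) hN := by
    intro x hx
    have hx1 : ∀ k, 1 ≤ x k := fun k => (hmem x hx k).1
    have hXne : ∀ j : ℕ, ((∏ k, (x k : ℤ)) ^ (W j) : ℤ) ≠ 0 := by
      intro j
      rw [hXZ]
      apply pow_ne_zero
      have := hX x hx
      have h0 : (∏ k, x k) ≠ 0 := by omega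
      exact_mod_cast h0
    refine ⟨fun j => An (W j) (c j) (o j) x, fun j => (∏ k, (x k : ℤ)) ^ (W j), ?_, ?_, ?_, ?_⟩
    · intro δ hδ
      obtain ⟨P, hP⟩ := ev_small B (δ / 2) hB (by positivity)
      filter_upwards [hNl (∏ k, x k) (hX x hx) (δ / 2) (by positivity),
        ev_of_atTop (hN.eventually_ge_atTop P)] with j hj1 hj2
      have e0 := An_eq (c j) (h5 j) hx1
      have e1 : ((An (W j) (c j) (o j) x : ℤ) : ℝ) =
          fv (W j) (c j) (o j) x * ((∏ k, x k : ℕ) : ℝ) ^ (W j) := by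
        have e2 : (((An (W j) (c j) (o j) x : ℤ) : ℚ) : ℝ) =
            ((fQ (W j) (c j) (o j) x * ((∏ k, (x k : ℤ)) ^ (W j) : ℤ) : ℚ) : ℝ) := by rw [e0]
        rw [hXZ] at e2
        rw [fv_cast]
        push_cast at e2 ⊢
        exact e2
      rw [e1, abs_mul]
      have e3 := fv_le (h4 j) (o j) hx1
      have e4 : B * ((W j : ℝ) + 1) ≤ Real.exp (δ / 2 * N j) := by
        have e5 := hP _ hj2
        have e6 : (W j : ℝ) ≤ N j := by
          have e7 := h3 j
          have e8 : (0 : ℝ) ≤ W j := Nat.cast_nonneg _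
          have e9 : (0 : ℝ) ≤ j := Nat.cast_nonneg _
          nlinarith
        rw [Real.exp_neg, ← div_eq_mul_inv, div_le_iff₀ (Real.exp_pos _)] at e5
        have e7 : 0 < Real.exp (δ / 2 * N j) := Real.exp_pos _
        have e8 : B * ((W j : ℝ) + 1) ≤ B * ((N j : ℝ) + 1) := by gcongr
        linarith
      have e5 : |((∏ k, x k : ℕ) : ℝ) ^ (W j)| ≤ Real.exp (δ / 2 * N j) := by
        have := hj1
        push_cast at this ⊢
        exact this
      calc |fv (W j) (c j) (o j) x| * |((∏ k, x k : ℕ) : ℝ) ^ (W j)|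
          ≤ Real.exp (δ / 2 * N j) * Real.exp (δ / 2 * N j) :=
            mul_le_mul (e3.trans e4) e5 (abs_nonneg _) (Real.exp_pos _).le
        _ = Real.exp (δ * N j) := by rw [← Real.exp_add]; ring_nf
    · have := hNl (∏ k, x k) (hX x hx)
      intro δ hδ
      filter_upwards [this δ hδ] with j hj
      rw [hXZ]
      exact hj
    · exact Eventually.of_forall hXne
    · congr 1
      funext j
      have e0 := An_eq (c j) (h5 j) hx1
      have hz : (((∏ k, (x k : ℤ)) ^ (W j) : ℤ) : ℚ) ≠ 0 := by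
        have := hXne j
        exact_mod_cast this
      rw [eq_div_iff hz, e0]
  -- the units
  set ι := {x : Fin (R + 1) → ℕ // x ∈ DF (R + 1) (l + 1)} with hι
  set u : ι → GG := fun x => gm (fun j => uQ (s j) x.1) with hu
  have hGSU : ∀ i, GSU (bp l) (u i) := fun i => ⟨_, rfl, fun j => isSU_uQ (hmem _ i.2) _⟩
  have hquo : ∀ x y : ι, u x / u y = gm (fun j =>
      ((∏ k, (y.1 k : ℤ) ^ (s j k) : ℤ) : ℚ) / ((∏ k, (x.1 k : ℤ) ^ (s j k) : ℤ) : ℚ)) := by
    intro x y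
    rw [hu]
    simp only
    rw [gm_div]
    congr 1
    funext j
    unfold uQ
    push_cast
    rw [inv_div_inv]
  have hne0 : ∀ (z : ι) (j : ℕ), (∏ k, (z.1 k : ℤ) ^ (s j k) : ℤ) ≠ 0 := by
    intro z j
    refine prod_ne_zero_iff.2 fun k _ => pow_ne_zero _ ?_
    have := (hmem _ z.2 k).1
    have h0 : z.1 k ≠ 0 := by omega
    exact_mod_cast h0
  have hbd : ∀ i j, Bd (fun j => (N j : ℝ)) (u i / u j) := by
    intro x y
    have hsz : ∀ z : ι, ∀ᶠ j in (UU : Filter ℕ),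
        |((∏ k, (z.1 k : ℤ) ^ (s j k) : ℤ) : ℝ)| ≤
          Real.exp ((R + 1) * K * Real.log l * N j) := by
      intro z
      refine Eventually.of_forall fun j => ?_
      push_cast
      rw [abs_of_nonneg (by positivity)]
      have e1 : ∏ k, (z.1 k : ℝ) ^ (s j k) ≤ ∏ _k : Fin (R + 1), Real.exp (K * Real.log l * N j) := by
        refine prod_le_prod (fun k _ => by positivity) fun k _ => ?_
        have e2 : (z.1 k : ℝ) ≤ l := by exact_mod_cast (hmem _ z.2 k).2
        calc (z.1 k : ℝ) ^ (s j k) ≤ (l : ℝ) ^ (s j k) := by gcongr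
          _ = Real.exp ((s j k : ℝ) * Real.log l) := by
              rw [← Real.exp_log (pow_pos hl0 _), Real.log_pow]
          _ ≤ _ := by
              apply Real.exp_le_exp.2
              have := h2 j k
              nlinarith
      refine e1.trans (le_of_eq ?_)
      rw [prod_const, card_univ, Fintype.card_fin, ← Real.exp_nat_mul]
      congr 1
      push_cast
      ring
    exact ⟨_, _, (R + 1) * K * Real.log l, hsz y, hsz x, Eventually.of_forall (hne0 x), hquo x y⟩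
  have hi0 := x0_mem hRl
  have hcl : ∀ i : ι, i ≠ ⟨x0 R l, hi0⟩ → u i / u ⟨x0 R l, hi0⟩ ∉
      KK (fun j => (N j : ℝ)) hN := by
    intro x hx hK'
    obtain ⟨M, D, hM, hD, hD0, hq⟩ := hK'
    rw [hquo, gm_eq] at hq
    have hNpos : ∀ᶠ j in (UU : Filter ℕ), (1 : ℝ) ≤ N j := ev_of_atTop (hN.eventually_ge_atTop 1)
    have hx' := x.2
    rw [mem_DF_succ] at hx'
    obtain ⟨hx1, hx2, hx3⟩ := hx'
    have hprod : ∀ (j : ℕ) (z : Fin (R + 1) → ℕ), ∏ k, (z k : ℤ) ^ (s j k) =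
        (z 0 : ℤ) ^ (s j 0) * ∏ k : Fin R, (z k.succ : ℤ) ^ (s j k.succ) := by
      intro j z
      rw [Fin.prod_univ_succ]
    have hx00 : x0 R l 0 = l := by
      unfold x0
      rw [Fin.cons_zero]
    have hx0s : ∀ k : Fin R, x0 R l k.succ = R - (k : ℕ) := by
      intro k
      unfold x0
      rw [Fin.cons_succ]
    by_cases hxl : x.1 0 = l
    · -- the first components are equal
      obtain ⟨k1, hk1⟩ : ∃ k1 : Fin R, x.1 k1.succ ≠ R - (k1 : ℕ) := by
        by_contra hcon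
        push Not at hcon
        apply hx
        apply Subtype.ext
        funext k
        refine Fin.cases ?_ (fun k => ?_) k
        · change x.1 0 = x0 R l 0
          rw [hx00]; exact hxl
        · change x.1 k.succ = x0 R l k.succ
          rw [hx0s]; exact hcon k
      have hR : 1 ≤ R := by
        have := k1.isLt
        omega
      have hR0 : (0 : ℝ) < R := by exact_mod_cast hR
      have hlR : 0 < Real.log (1 + 1 / (R : ℝ)) := Real.log_pos (by
        have : 0 < 1 / (R : ℝ) := by positivity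
        linarith)
      have hfin : ∀ᶠ j in (UU : Filter ℕ), False := by
        filter_upwards [hq, hD0, hD (Real.log (1 + 1 / (R : ℝ)) / 2) (by positivity), hNpos]
          with j e1 e2 e4 e5
        have f3 := hne0 x j
        have f4 : (∏ k, (x0 R l k : ℤ) ^ (s j k)) * D j = M j * ∏ k, (x.1 k : ℤ) ^ (s j k) := by
          rw [div_eq_div_iff (by exact_mod_cast f3) (by exact_mod_cast e2)] at e1
          exact_mod_cast e1
        have f5 : M j ≠ 0 := by
          intro h0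
          rw [h0, zero_mul] at f4
          exact (mul_ne_zero (hne0 ⟨x0 R l, hi0⟩ j) e2) f4
        rw [hprod, hprod, hx00, hxl] at f4
        have hlZ : (l : ℤ) ^ (s j 0) ≠ 0 := pow_ne_zero _ (by exact_mod_cast hl.ne_zero)
        have f6 : (∏ k : Fin R, (x0 R l k.succ : ℤ) ^ (s j k.succ)) * D j =
            M j * ∏ k : Fin R, (x.1 k.succ : ℤ) ^ (s j k.succ) := by
          apply mul_left_cancel₀ hlZ
          rw [← mul_assoc, f4]
          ring
        have f7 := prod_gap (s := fun k : Fin R => s j k.succ) (y := fun k => x.1 k.succ)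
          (fun k => h1 j k.succ) (fun k => DF_ge hx3 k) hk1
        have f8 : |((∏ k : Fin R, (x0 R l k.succ : ℤ) ^ (s j k.succ) : ℤ) : ℝ)| * |(D j : ℝ)| =
            |(M j : ℝ)| * |((∏ k : Fin R, (x.1 k.succ : ℤ) ^ (s j k.succ) : ℤ) : ℝ)| := by
          rw [← abs_mul, ← abs_mul, ← Int.cast_mul, ← Int.cast_mul, f6]
        have f9 : |((∏ k : Fin R, (x0 R l k.succ : ℤ) ^ (s j k.succ) : ℤ) : ℝ)| =
            ∏ k : Fin R, ((R - (k : ℕ) : ℕ) : ℝ) ^ (s j k.succ) := by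
          push_cast
          rw [abs_of_nonneg (by positivity)]
          refine prod_congr rfl fun k _ => ?_
          rw [hx0s]
        have f10 : |((∏ k : Fin R, (x.1 k.succ : ℤ) ^ (s j k.succ) : ℤ) : ℝ)| =
            ∏ k : Fin R, (x.1 k.succ : ℝ) ^ (s j k.succ) := by
          push_cast
          rw [abs_of_nonneg (by positivity)]
        rw [f9, f10] at f8
        have f11 : (1 : ℝ) ≤ |(M j : ℝ)| := by exact_mod_cast Int.one_le_abs f5
        have f12 : (0 : ℝ) < ∏ k : Fin R, ((R - (k : ℕ) : ℕ) : ℝ) ^ (s j k.succ) := by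
          refine prod_pos fun k _ => pow_pos ?_ _
          have := k.isLt
          have h : 0 < R - (k : ℕ) := by omega
          exact_mod_cast h
        have f13 : (1 + 1 / (R : ℝ)) ^ (N j) ≤ |(D j : ℝ)| := by
          have g1 : (1 + 1 / (R : ℝ)) ^ (N j) * ∏ k : Fin R, ((R - (k : ℕ) : ℕ) : ℝ) ^ (s j k.succ) ≤
              |(D j : ℝ)| * ∏ k : Fin R, ((R - (k : ℕ) : ℕ) : ℝ) ^ (s j k.succ) := by
            refine f7.trans ?_
            rw [mul_comm |(D j : ℝ)|, f8]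
            exact le_mul_of_one_le_left (by positivity) f11
          exact le_of_mul_le_mul_right g1 f12
        have f14 : Real.exp (Real.log (1 + 1 / (R : ℝ)) / 2 * N j) < (1 + 1 / (R : ℝ)) ^ (N j) := by
          rw [← Real.exp_log (pow_pos (show (0 : ℝ) < 1 + 1 / (R : ℝ) by positivity) (N j)),
            Real.log_pow]
          apply Real.exp_lt_exp.2
          nlinarith
        linarith
      obtain ⟨_, hf⟩ := hfin.exists
      exact hf
    · have hlt : x.1 0 < l := by omega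
      have hfin : ∀ᶠ j in (UU : Filter ℕ), False := by
        filter_upwards [hq, hD0, hM (Real.log l / 2) (by positivity), hNpos]
          with j e1 e2 e3 e5
        have f3 := hne0 x j
        have f4 : (∏ k, (x0 R l k : ℤ) ^ (s j k)) * D j = M j * ∏ k, (x.1 k : ℤ) ^ (s j k) := by
          rw [div_eq_div_iff (by exact_mod_cast f3) (by exact_mod_cast e2)] at e1
          exact_mod_cast e1
        have f5 : M j ≠ 0 := by
          intro h0
          rw [h0, zero_mul] at f4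
          exact (mul_ne_zero (hne0 ⟨x0 R l, hi0⟩ j) e2) f4
        have f6 : (l : ℤ) ^ (s j 0) ∣ M j := by
          have g1 : (l : ℤ) ^ (s j 0) ∣ M j * ∏ k, (x.1 k : ℤ) ^ (s j k) := by
            rw [← f4, hprod, hx00, mul_assoc]
            exact dvd_mul_right _ _
          have g3 : IsCoprime ((l : ℤ) ^ (s j 0)) (∏ k, (x.1 k : ℤ) ^ (s j k)) := by
            refine IsCoprime.prod_right fun k _ => IsCoprime.pow ?_
            rw [Nat.isCoprime_iff_coprime]
            have hk : x.1 k < l := by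
              refine Fin.cases hlt (fun k => ?_) k
              exact (DF_lt hx3 k).trans hlt
            exact (Nat.Prime.coprime_iff_not_dvd hl).2
              (Nat.not_dvd_of_pos_of_lt (by have := (hmem _ x.2 k).1; omega) hk)
          exact g3.dvd_of_dvd_mul_right g1
        have f7 := Int.le_of_dvd (abs_pos.2 f5) ((dvd_abs _ _).2 f6)
        have f8 : (l : ℝ) ^ (s j 0) ≤ |(M j : ℝ)| := by exact_mod_cast f7
        have f9 : Real.exp (Real.log l / 2 * N j) < (l : ℝ) ^ (N j) := by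
          rw [← Real.exp_log (pow_pos hl0 (N j)), Real.log_pow]
          apply Real.exp_lt_exp.2
          nlinarith
        have f10 : (l : ℝ) ^ (N j) ≤ (l : ℝ) ^ (s j 0) := by
          apply pow_le_pow_right₀ _ (h1 j 0)
          exact_mod_cast hl.one_le
        linarith
      obtain ⟨_, hf⟩ := hfin.exists
      exact hf
  -- the germ of the sum
  have hc0 : (⟨gm (fun j => fQ (W j) (c j) (o j) (x0 R l)), hcK _ hi0⟩ :
      KK (fun j => (N j : ℝ)) hN) ≠ 0 := by
    intro h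
    have h7 : gm (fun j => fQ (W j) (c j) (o j) (x0 R l)) = 0 := congrArg Subtype.val h
    rw [← gm_zero, gm_eq] at h7
    obtain ⟨j, hj⟩ := h7.exists
    apply h6 j
    rw [fv_cast, hj]
    simp
  have key := lbg (bp l) (bp_prime l) (bp_inj l) hN u hGSU hbd none ⟨x0 R l, hi0⟩ _ Finset.univ rfl
    (Finset.mem_univ _) (fun x : ι => ⟨_, hcK x.1 x.2⟩) hc0 (fun i _ hi => hcl i hi)
  have hsum : ∑ i : ι, ((⟨_, hcK i.1 i.2⟩ : KK (fun j => (N j : ℝ)) hN) : GG) * u i =
      gm (fun j => ∑ x ∈ DF (R + 1) (l + 1), fQ (W j) (c j) (o j) x * uQ (s j) x) := by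
    have h7 : ∀ i : ι, ((⟨_, hcK i.1 i.2⟩ : KK (fun j => (N j : ℝ)) hN) : GG) * u i =
        gm (fun j => fQ (W j) (c j) (o j) i.1 * uQ (s j) i.1) :=
      fun i => rfl
    rw [Finset.sum_congr rfl fun i _ => h7 i, gm_sum]
    congr 1
    funext j
    exact Finset.sum_coe_sort (DF (R + 1) (l + 1))
      (fun x => fQ (W j) (c j) (o j) x * uQ (s j) x)
  rw [hsum] at key
  have key2 := val_le hN (wv (bp l) (bp_prime l) none) key ε hε
  filter_upwards [key2] with j hj
  have hw : ∀ y : ℚ, wv (bp l) (bp_prime l) none y = |(y : ℝ)| := by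
    intro y
    change Rat.AbsoluteValue.real y = _
    rw [Rat.AbsoluteValue.real_eq_abs]
    push_cast
    rfl
  rw [hw, hw] at hj
  have h8 : |((uQ (s j) (x0 R l) : ℚ) : ℝ)| = un (s j) (x0 R l) := by
    rw [← un_cast, abs_of_nonneg (un_nonneg _ _)]
  have h9 : ((∑ x ∈ DF (R + 1) (l + 1), fQ (W j) (c j) (o j) x * uQ (s j) x : ℚ) : ℝ) =
      ∑ x ∈ DF (R + 1) (l + 1), fv (W j) (c j) (o j) x * un (s j) x := by
    rw [Rat.cast_sum]
    refine Finset.sum_congr rfl fun x _ => ?_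
    rw [fv_cast, un_cast]
    push_cast
    rfl
  rw [h8, h9] at hj
  exact hj

/-- **The sum over the tuples up to `l`.** -/
theorem low (R l : ℕ) (hl : l.Prime) (hRl : R + 1 ≤ l) (B K ε : ℝ) (hε : 0 < ε) (hK : 0 ≤ K) :
    ∃ δ : ℝ, 0 < δ ∧ ∃ P : ℕ, ∀ (N W : ℕ) (s : Fin (R + 1) → ℕ) (c : ℕ → ℤ)
      (o : ℕ → Fin (R + 1) → ℕ), P ≤ N → (∀ k, N ≤ s k) → (∀ k, (s k : ℝ) ≤ K * N) →
      (W : ℝ) ≤ δ * N → (∀ i ≤ W, |(c i : ℝ)| ≤ B) → (∀ i ≤ W, ∀ k, o i k ≤ W) →
      fv W c o (x0 R l) ≠ 0 →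
      Real.exp (-(ε * N)) * un s (x0 R l) ≤ |∑ x ∈ DF (R + 1) (l + 1), fv W c o x * un s x| := by
  by_contra hno
  push Not at hno
  have h := fun j : ℕ => hno (1 / ((j : ℝ) + 1)) (by positivity) j
  choose N W s c o h1 h2 h3 h4 h5 h6 h7 h8 using h
  have hN : Tendsto (fun j => (N j : ℝ)) atTop atTop :=
    tendsto_atTop_mono (fun j => (by exact_mod_cast h1 j : (j : ℝ) ≤ N j))
      tendsto_natCast_atTop_atTop
  have h9 := low_seq R l hl hRl B K (ε / 2) (by positivity) hK N W s c o hN h2 h3 (fun j => by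
    have := h4 j
    rw [one_div, inv_mul_eq_div, le_div_iff₀ (by positivity)] at this
    exact this) h5 h6 h7
  have hNpos : ∀ᶠ j in (UU : Filter ℕ), (1 : ℝ) ≤ N j := ev_of_atTop (hN.eventually_ge_atTop 1)
  have h10 : ∀ᶠ j in (UU : Filter ℕ), False := by
    filter_upwards [h9, hNpos] with j e1 e2
    have e3 := h8 j
    have hl0 : (0 : ℝ) < l := by exact_mod_cast hl.pos
    have hu0 : 0 < un (s j) (x0 R l) := by
      rw [un_x0]
      have := vv_pos R (fun k => s j k.succ)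
      positivity
    have e5 : |∑ x ∈ DF (R + 1) (l + 1), fv (W j) (c j) (o j) x * un (s j) x| *
        Real.exp (ε / 2 * N j) <
        Real.exp (-(ε * N j)) * un (s j) (x0 R l) * Real.exp (ε / 2 * N j) :=
      mul_lt_mul_of_pos_right e3 (Real.exp_pos _)
    have e6 : Real.exp (-(ε * N j)) * un (s j) (x0 R l) * Real.exp (ε / 2 * N j) =
        Real.exp (-(ε / 2 * N j)) * un (s j) (x0 R l) := by
      rw [mul_right_comm, ← Real.exp_add]
      congr 2
      ring
    have e7 : Real.exp (-(ε / 2 * N j)) < 1 := by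
      rw [Real.exp_lt_one_iff]
      have : 0 < ε / 2 * N j := by positivity
      linarith
    have e8 : Real.exp (-(ε / 2 * N j)) * un (s j) (x0 R l) < 1 * un (s j) (x0 R l) :=
      mul_lt_mul_of_pos_right e7 hu0
    linarith
  obtain ⟨_, hf⟩ := h10.exists
  exact hf

end Pool.Agent.D0H51.DR
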