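import Mathlib
import Pool.Agent.D0H51.DR.Low
import Pool.Agent.H340R2.LW

/-!
# Linearly many multiple zeta values of any depth
-/

set_option autoImplicit false

namespace Pool.Agent.D0H51.DR

open Finset
open Pool.Agent.D0H51.DZ (ev_small)

/-- a combination with coefficients smaller than the prime `l` has a nonzero coefficient at the tuple
`(l, R, ..., 1)` -/
lemma fv_ne {R W l : ℕ} (hl : l.Prime) (hRl : R + 1 ≤ l) {c : ℕ → ℤ} {o : ℕ → Fin (R + 1) → ℕ}
    (hc : ∀ i ≤ W, |(c i : ℝ)| < l) (ho : ∀ i ≤ W, ∀ k, o i k ≤ W) (ho0 : ∀ i ≤ W, o i 0 = i)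
    (h : ∃ i ≤ W, c i ≠ 0) : fv W c o (x0 R l) ≠ 0 := by
  intro h0
  classical
  obtain ⟨i0, hi0, hci0⟩ := h
  set S := (range (W + 1)).filter fun i => c i ≠ 0 with hS
  have hSne : S.Nonempty := ⟨i0, by rw [hS, mem_filter, mem_range]; exact ⟨by omega, hci0⟩⟩
  set t := S.max' hSne with ht
  have htS : t ∈ S := S.max'_mem hSne
  rw [hS, mem_filter, mem_range] at htS
  have hmax : ∀ i, t < i → i ≤ W → c i = 0 := by
    intro i h1 h2
    by_contra h3
    have h4 : i ∈ S := by rw [hS, mem_filter, mem_range]; exact ⟨by omega, h3⟩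
    have h5 := S.le_max' i h4
    omega
  have hl0 : (l : ℝ) ≠ 0 := by exact_mod_cast hl.ne_zero
  have hpos : ∀ k : Fin R, 1 ≤ R - (k : ℕ) := by
    intro k
    have := k.isLt
    omega
  have h1 : ((∑ i ∈ range (t + 1), c i * (l : ℤ) ^ (t - i) *
      ∏ k : Fin R, ((R - (k : ℕ) : ℕ) : ℤ) ^ (W - o i k.succ) : ℤ) : ℝ) = 0 := by
    have h2 : fv W c o (x0 R l) * ((l : ℝ) ^ t *
        ∏ k : Fin R, ((R - (k : ℕ) : ℕ) : ℝ) ^ W) = 0 := by rw [h0, zero_mul]
    rw [← h2]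
    unfold fv
    have h3 : ∑ i ∈ range (W + 1), (c i : ℝ) * un (o i) (x0 R l) =
        ∑ i ∈ range (t + 1), (c i : ℝ) * un (o i) (x0 R l) := by
      symm
      apply sum_subset
      · intro i hi
        rw [mem_range] at hi ⊢
        omega
      · intro i hi hi'
        rw [mem_range] at hi hi'
        rw [hmax i (by omega) (by omega)]
        simp
    rw [h3, sum_mul]
    push_cast
    refine sum_congr rfl fun i hi => ?_
    rw [mem_range] at hi
    rw [un_cons]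
    have e1 : x0 R l 0 = l := by unfold x0; rw [Fin.cons_zero]
    have e2 : (fun k : Fin R => x0 R l k.succ) = fun k : Fin R => R - (k : ℕ) := by
      funext k
      unfold x0
      rw [Fin.cons_succ]
    rw [e1, e2, ho0 i (by omega)]
    have h4 : (l : ℝ) ^ t = (l : ℝ) ^ i * (l : ℝ) ^ (t - i) := by
      rw [← pow_add]
      congr 1
      omega
    have h5 : ∏ k : Fin R, ((R - (k : ℕ) : ℕ) : ℝ) ^ W =
        (∏ k : Fin R, ((R - (k : ℕ) : ℕ) : ℝ) ^ (o i k.succ)) *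
          ∏ k : Fin R, ((R - (k : ℕ) : ℕ) : ℝ) ^ (W - o i k.succ) := by
      rw [← prod_mul_distrib]
      refine prod_congr rfl fun k _ => ?_
      rw [← pow_add]
      congr 1
      have := ho i (by omega) k.succ
      omega
    have h6 : (∏ k : Fin R, ((R - (k : ℕ) : ℕ) : ℝ) ^ (o i k.succ)) ≠ 0 := by
      refine prod_ne_zero_iff.2 fun k _ => pow_ne_zero _ ?_
      have := hpos k
      have h7 : R - (k : ℕ) ≠ 0 := by omega
      exact_mod_cast h7
    rw [h4, h5]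
    unfold un
    field_simp
  have h2 : ∑ i ∈ range (t + 1), c i * (l : ℤ) ^ (t - i) *
      ∏ k : Fin R, ((R - (k : ℕ) : ℕ) : ℤ) ^ (W - o i k.succ) = 0 := by exact_mod_cast h1
  rw [sum_range_succ, Nat.sub_self, pow_zero, mul_one] at h2
  have h3 : (l : ℤ) ∣ c t * ∏ k : Fin R, ((R - (k : ℕ) : ℕ) : ℤ) ^ (W - o t k.succ) := by
    have h4 : (l : ℤ) ∣ ∑ i ∈ range t, c i * (l : ℤ) ^ (t - i) *
        ∏ k : Fin R, ((R - (k : ℕ) : ℕ) : ℤ) ^ (W - o i k.succ) := by
      refine dvd_sum fun i hi => ?_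
      rw [mem_range] at hi
      exact Dvd.dvd.mul_right (Dvd.dvd.mul_left (dvd_pow_self _ (by omega)) _) _
    have h5 : c t * ∏ k : Fin R, ((R - (k : ℕ) : ℕ) : ℤ) ^ (W - o t k.succ) =
        -∑ i ∈ range t, c i * (l : ℤ) ^ (t - i) *
        ∏ k : Fin R, ((R - (k : ℕ) : ℕ) : ℤ) ^ (W - o i k.succ) := by linarith
    rw [h5]
    exact (dvd_neg).2 h4
  have h4 : IsCoprime (l : ℤ) (∏ k : Fin R, ((R - (k : ℕ) : ℕ) : ℤ) ^ (W - o t k.succ)) := by
    refine IsCoprime.prod_right fun k _ => IsCoprime.pow_right ?_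
    rw [Nat.isCoprime_iff_coprime]
    exact (Nat.Prime.coprime_iff_not_dvd hl).2
      (Nat.not_dvd_of_pos_of_lt (hpos k) (by omega))
  have h5 : (l : ℤ) ∣ c t := h4.dvd_of_dvd_mul_right h3
  have h6 := Int.le_of_dvd (abs_pos.2 htS.2) ((dvd_abs _ _).2 h5)
  have h7 : (l : ℝ) ≤ |(c t : ℝ)| := by exact_mod_cast h6
  have h8 := hc t (by omega)
  linarith

/-- the size of a multiple zeta value with large arguments -/
lemma mzF_le {R N : ℕ} (hN : 2 ≤ N) {s : Fin (R + 1) → ℕ} (hs : ∀ k, N ≤ s k) :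
    |mzF R s| ≤ 2 * CC R * ((R : ℝ) + 1) ^ 2 / ((R : ℝ) + 1) ^ N := by
  have h1 := trunc_err (s := s) (fun k => hN.trans (hs k)) R
  have h2 : ∑ x ∈ DF (R + 1) (R + 1), un s x = 0 := by
    apply sum_eq_zero
    intro x hx
    exact absurd (DF_le (by omega) hx) (by omega)
  rw [h2, sub_zero] at h1
  refine h1.trans ?_
  have h3 : vv R (fun k => s k.succ) ≤ 1 := by
    unfold vv
    apply un_le_one
    intro k
    have := k.isLt
    omega
  have h4 := vv_pos R (fun k => s k.succ)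
  have h5 : ((R : ℝ) + 1) ^ N ≤ ((R : ℝ) + 1) ^ (s 0) :=
    pow_le_pow_right₀ (by linarith [Nat.cast_nonneg (α := ℝ) R]) (hs 0)
  calc 2 * CC R * vv R (fun k => s k.succ) * (((R : ℝ) + 1) ^ 2 / ((R : ℝ) + 1) ^ (s 0))
      ≤ 2 * CC R * 1 * (((R : ℝ) + 1) ^ 2 / ((R : ℝ) + 1) ^ N) := by gcongr
    _ = _ := by ring

/-- **The lower bound for combinations of multiple zeta values.** -/
theorem comb (R l : ℕ) (hl : l.Prime) (hRl : R + 1 ≤ l) (B : ℝ) (hB : 0 ≤ B) (κ : ℕ) :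
    ∃ δ : ℝ, 0 < δ ∧ δ ≤ 1 ∧ ∃ P : ℕ, ∀ (N W p : ℕ) (t : ℕ → Fin R → ℕ) (c : ℕ → ℤ), P ≤ N →
      N ≤ p → p ≤ κ * N → (∀ i ≤ W, ∀ k, N ≤ t i k ∧ t i k ≤ κ * N) → (W : ℝ) ≤ δ * N →
      (∀ i ≤ W, ∀ i' ≤ W, ∀ k, t i k ≤ t i' k + W) → (∀ i ≤ W, |(c i : ℝ)| ≤ B) →
      (∀ i ≤ W, |(c i : ℝ)| < l) → (∃ i ≤ W, c i ≠ 0) →
      1 / ((4 * l ^ κ * (R + 1) ^ (R * κ) : ℕ) : ℝ) ^ N ≤
        |∑ i ∈ range (W + 1), (c i : ℝ) * mzF R (Fin.cons (p + i) (t i))| := by
  have hl0 : (0 : ℝ) < l := by exact_mod_cast hl.pos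
  have hl2 : (2 : ℝ) ≤ l := by exact_mod_cast hl.two_le
  set ε : ℝ := Real.log (((l : ℝ) + 1) / l) / 2 with hεd
  have hε : 0 < ε := by
    have : 0 < Real.log (((l : ℝ) + 1) / l) := by
      apply Real.log_pos
      rw [one_lt_div hl0]
      linarith
    positivity
  obtain ⟨δ, hδ, P, h⟩ := low R l hl hRl B κ ε hε (Nat.cast_nonneg _)
  obtain ⟨P1, hP1⟩ := ev_small (4 * B * CC R * ((l : ℝ) + 1) ^ 2) ε (by positivity) hε
  refine ⟨min δ 1, lt_min hδ one_pos, min_le_right _ _, max P (max P1 2), ?_⟩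
  intro N W p t c hP hNp hpN ht hW htt hc hcl hne
  simp only [max_le_iff] at hP
  obtain ⟨hP, hP1', hN2⟩ := hP
  have hN0 : (0 : ℝ) ≤ N := Nat.cast_nonneg _
  have hW1 : (W : ℝ) ≤ N := by
    have := hW.trans (mul_le_mul_of_nonneg_right (min_le_right _ _) hN0)
    rwa [one_mul] at this
  have hWδ := hW.trans (mul_le_mul_of_nonneg_right (min_le_left _ _) hN0)
  -- the base point
  have hrne : (range (W + 1)).Nonempty := ⟨0, by rw [mem_range]; omega⟩
  set q : Fin R → ℕ := fun k => (range (W + 1)).inf' hrne fun i => t i k with hq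
  have hq1 : ∀ i ≤ W, ∀ k, q k ≤ t i k := by
    intro i hi k
    exact inf'_le _ (by rw [mem_range]; omega)
  have hq2 : ∀ k, ∃ i ≤ W, q k = t i k := by
    intro k
    obtain ⟨i, hi, h1⟩ := exists_mem_eq_inf' hrne fun i => t i k
    rw [mem_range] at hi
    exact ⟨i, by omega, h1⟩
  set s : Fin (R + 1) → ℕ := Fin.cons p q with hs
  set o : ℕ → Fin (R + 1) → ℕ := fun i => Fin.cons i fun k => t i k - q k with ho
  have hs0 : s 0 = p := by rw [hs, Fin.cons_zero]
  have hss : ∀ k : Fin R, s k.succ = q k := fun k => by rw [hs, Fin.cons_succ]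
  have ho0 : ∀ i, o i 0 = i := fun i => by rw [ho]; simp only [Fin.cons_zero]
  have hos : ∀ i, ∀ k : Fin R, o i k.succ = t i k - q k := fun i k => by
    rw [ho]; simp only [Fin.cons_succ]
  have hoW : ∀ i ≤ W, ∀ k, o i k ≤ W := by
    intro i hi k
    refine Fin.cases ?_ (fun k => ?_) k
    · rw [ho0]; exact hi
    · rw [hos]
      obtain ⟨i', hi', h1⟩ := hq2 k
      have := htt i hi i' hi' k
      omega
  have hsN : ∀ k, N ≤ s k := by
    intro k
    refine Fin.cases ?_ (fun k => ?_) k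
    · rw [hs0]; exact hNp
    · rw [hss]
      obtain ⟨i', hi', h1⟩ := hq2 k
      rw [h1]
      exact (ht i' hi' k).1
  have hsK : ∀ k, s k ≤ κ * N := by
    intro k
    refine Fin.cases ?_ (fun k => ?_) k
    · rw [hs0]; exact hpN
    · rw [hss]
      obtain ⟨i', hi', h1⟩ := hq2 k
      rw [h1]
      exact (ht i' hi' k).2
  have hsum : ∀ i ≤ W, (Fin.cons (p + i) (t i) : Fin (R + 1) → ℕ) = fun k => s k + o i k := by
    intro i hi
    funext k
    refine Fin.cases ?_ (fun k => ?_) k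
    · rw [Fin.cons_zero, hs0, ho0]
    · rw [Fin.cons_succ, hss, hos]
      have := hq1 i hi k
      omega
  have hmain := h N W s c o hP hsN (fun k => by exact_mod_cast hsK k) hWδ hc hoW
    (fv_ne hl hRl hcl hoW (fun i _ => ho0 i) hne)
  rw [un_x0, hs0] at hmain
  set V := vv R (fun k => s k.succ) with hV
  have hVpos : 0 < V := vv_pos _ _
  -- the error
  set Λ := ∑ i ∈ range (W + 1), (c i : ℝ) * mzF R (Fin.cons (p + i) (t i)) with hΛ
  set S := ∑ x ∈ DF (R + 1) (l + 1), fv W c o x * un s x with hS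
  have hS2 : S = ∑ i ∈ range (W + 1), (c i : ℝ) *
      ∑ x ∈ DF (R + 1) (l + 1), un (Fin.cons (p + i) (t i)) x := by
    rw [hS]
    unfold fv
    simp_rw [sum_mul, mul_sum]
    rw [sum_comm]
    refine sum_congr rfl fun i hi => sum_congr rfl fun x _ => ?_
    rw [mem_range] at hi
    rw [hsum i (by omega), mul_assoc]
    congr 1
    unfold un
    rw [← mul_inv, ← prod_mul_distrib]
    congr 1
    refine prod_congr rfl fun k _ => ?_
    rw [← pow_add, add_comm]
  have herr : |Λ - S| ≤ B * (W + 1) * (2 * CC R * V * (((l : ℝ) + 1) ^ 2 / ((l : ℝ) + 1) ^ p)) := by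
    rw [hΛ, hS2, ← sum_sub_distrib]
    refine (abs_sum_le_sum_abs _ _).trans ?_
    have e1 : ∀ i ∈ range (W + 1), |(c i : ℝ) * mzF R (Fin.cons (p + i) (t i)) -
        (c i : ℝ) * ∑ x ∈ DF (R + 1) (l + 1), un (Fin.cons (p + i) (t i)) x| ≤
        B * (2 * CC R * V * (((l : ℝ) + 1) ^ 2 / ((l : ℝ) + 1) ^ p)) := by
      intro i hi
      rw [mem_range] at hi
      rw [← mul_sub, abs_mul]
      have e2 : ∀ k, 2 ≤ (Fin.cons (p + i) (t i) : Fin (R + 1) → ℕ) k := by
        intro k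
        rw [hsum i (by omega)]
        have := hsN k
        simp only
        omega
      have e3 := trunc_err e2 l
      have e4 : vv R (fun k => (Fin.cons (p + i) (t i) : Fin (R + 1) → ℕ) k.succ) ≤ V := by
        rw [hV]
        apply vv_anti
        intro k
        rw [Fin.cons_succ, hss]
        exact hq1 i (by omega) k
      have e5 : ((l : ℝ) + 1) ^ p ≤ ((l : ℝ) + 1) ^ ((Fin.cons (p + i) (t i) : Fin (R + 1) → ℕ) 0) := by
        rw [Fin.cons_zero]
        exact pow_le_pow_right₀ (by linarith) (by omega)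
      have e6 := vv_pos R (fun k => (Fin.cons (p + i) (t i) : Fin (R + 1) → ℕ) k.succ)
      refine mul_le_mul (hc i (by omega)) (e3.trans ?_) (abs_nonneg _) hB
      gcongr
    refine (sum_le_sum e1).trans (le_of_eq ?_)
    rw [sum_const, card_range, nsmul_eq_mul]
    push_cast
    ring
  have hl1 : ((l : ℝ) + 1) ^ p = (l : ℝ) ^ p * Real.exp (2 * ε * p) := by
    have e1 : Real.exp (2 * ε * p) = (((l : ℝ) + 1) / l) ^ p := by
      rw [hεd, mul_comm (2 * _), Real.exp_nat_mul]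
      congr 1
      rw [mul_div_cancel₀ _ (two_ne_zero), Real.exp_log (by positivity)]
    rw [e1, ← mul_pow]
    congr 1
    field_simp
  have hNpR : (N : ℝ) ≤ p := by exact_mod_cast hNp
  have hmain2 : 1 / 2 * (Real.exp (-(ε * N)) * (V / (l : ℝ) ^ p)) ≤ |Λ| := by
    have e1 : |S| ≤ |Λ| + |Λ - S| := by
      have e2 : S = Λ - (Λ - S) := by ring
      calc |S| = |Λ - (Λ - S)| := by rw [← e2]
        _ ≤ _ := abs_sub _ _
    have e3 : B * (W + 1) * (2 * CC R * V * (((l : ℝ) + 1) ^ 2 / ((l : ℝ) + 1) ^ p)) ≤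
        1 / 2 * (Real.exp (-(ε * N)) * (V / (l : ℝ) ^ p)) := by
      rw [hl1]
      have e4 := hP1 N (by exact_mod_cast hP1')
      have e5 : Real.exp (ε * N) * Real.exp (ε * N) ≤ Real.exp (2 * ε * p) := by
        rw [← Real.exp_add]
        apply Real.exp_le_exp.2
        nlinarith
      have e6 : Real.exp (-(ε * N)) = 1 / Real.exp (ε * N) := by
        rw [Real.exp_neg, one_div]
      rw [e6] at e4 ⊢
      have e7 : 0 < Real.exp (ε * N) := Real.exp_pos _
      have e8 : B * (W + 1) * (2 * CC R * V * (((l : ℝ) + 1) ^ 2 /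
          ((l : ℝ) ^ p * Real.exp (2 * ε * p)))) ≤
          B * (N + 1) * (2 * CC R * V * (((l : ℝ) + 1) ^ 2 /
          ((l : ℝ) ^ p * (Real.exp (ε * N) * Real.exp (ε * N))))) := by
        gcongr
      refine e8.trans ?_
      have e9 : B * (N + 1) * (2 * CC R * V * (((l : ℝ) + 1) ^ 2 /
          ((l : ℝ) ^ p * (Real.exp (ε * N) * Real.exp (ε * N))))) =
          1 / 2 * (4 * B * CC R * ((l : ℝ) + 1) ^ 2 * ((N : ℝ) + 1) * (1 / Real.exp (ε * N))) *
            (1 / Real.exp (ε * N) * (V / (l : ℝ) ^ p)) := by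
        field_simp
        ring
      rw [e9]
      have e10 : 0 < 1 / Real.exp (ε * N) * (V / (l : ℝ) ^ p) := by positivity
      nlinarith
    linarith
  refine le_trans ?_ hmain2
  -- the explicit lower bound
  have g1 : Real.exp (ε * N) ≤ 2 ^ N := by
    have : Real.exp ε ≤ 2 := by
      have e1 : Real.exp ε ≤ Real.exp (Real.log (((l : ℝ) + 1) / l)) := by
        apply Real.exp_le_exp.2
        rw [hεd]
        have : 0 < Real.log (((l : ℝ) + 1) / l) := by
          apply Real.log_pos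
          rw [one_lt_div hl0]
          linarith
        linarith
      rw [Real.exp_log (by positivity)] at e1
      refine e1.trans ?_
      rw [div_le_iff₀ hl0]
      linarith
    rw [mul_comm, Real.exp_nat_mul]
    gcongr
  have g2 : (2 : ℝ) ≤ 2 ^ N := by
    calc (2 : ℝ) = 2 ^ 1 := (pow_one _).symm
      _ ≤ 2 ^ N := pow_le_pow_right₀ (by norm_num) (by omega)
  have g3 : (l : ℝ) ^ p ≤ ((l : ℝ) ^ κ) ^ N := by
    rw [← pow_mul]
    exact pow_le_pow_right₀ (by linarith) hpN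
  have g4 : 1 / V ≤ (((R : ℝ) + 1) ^ (R * κ)) ^ N := by
    rw [hV]
    unfold vv un
    rw [one_div, inv_inv]
    have e1 : ∏ k : Fin R, ((R - (k : ℕ) : ℕ) : ℝ) ^ (s k.succ) ≤
        ∏ _k : Fin R, ((R : ℝ) + 1) ^ (κ * N) := by
      refine prod_le_prod (fun k _ => by positivity) fun k _ => ?_
      have e2 : ((R - (k : ℕ) : ℕ) : ℝ) ≤ (R : ℝ) + 1 := by
        have : R - (k : ℕ) ≤ R + 1 := by omega
        exact_mod_cast this
      calc ((R - (k : ℕ) : ℕ) : ℝ) ^ (s k.succ) ≤ ((R : ℝ) + 1) ^ (s k.succ) := by gcongr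
        _ ≤ _ := pow_le_pow_right₀ (by linarith [Nat.cast_nonneg (α := ℝ) R]) (hsK _)
    refine e1.trans (le_of_eq ?_)
    rw [prod_const, card_univ, Fintype.card_fin, ← pow_mul, ← pow_mul]
    congr 1
    ring
  have g5 : 0 < Real.exp (ε * N) := Real.exp_pos _
  have g6 : 1 / 2 * (Real.exp (-(ε * N)) * (V / (l : ℝ) ^ p)) =
      1 / (2 * Real.exp (ε * N) * (l : ℝ) ^ p * (1 / V)) := by
    rw [Real.exp_neg]
    field_simp
  rw [g6]
  apply one_div_le_one_div_of_le (by positivity)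
  calc 2 * Real.exp (ε * N) * (l : ℝ) ^ p * (1 / V)
      ≤ 2 ^ N * 2 ^ N * ((l : ℝ) ^ κ) ^ N * (((R : ℝ) + 1) ^ (R * κ)) ^ N := by gcongr
    _ = ((4 * l ^ κ * (R + 1) ^ (R * κ) : ℕ) : ℝ) ^ N := by
        push_cast
        rw [← mul_pow, ← mul_pow, ← mul_pow]
        norm_num

/-- `2 π i` -/
noncomputable def mu : ℂ := 2 * Real.pi * Complex.I

lemma mu_transcendental : Transcendental ℚ mu := by
  intro h
  apply Pool.Agent.H340R2.LW.transcendental_pi
  have h1 : IsAlgebraic ℚ (mu * (-Complex.I / 2)) := by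
    apply IsAlgebraic.mul h
    have hI : IsAlgebraic ℚ Complex.I := by
      refine ⟨Polynomial.X ^ 2 + 1, ?_, by simp⟩
      intro h0
      have := congrArg (fun p => Polynomial.coeff p 2) h0
      simp [Polynomial.coeff_one] at this
    have h2 : IsAlgebraic ℚ (2 : ℂ) := by
      have := isAlgebraic_algebraMap (R := ℚ) (A := ℂ) (2 : ℚ)
      simpa using this
    rw [div_eq_mul_inv]
    exact (hI.neg).mul h2.inv
  have h2 : mu * (-Complex.I / 2) = (Real.pi : ℂ) := by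
    unfold mu
    have : Complex.I * Complex.I = -1 := Complex.I_mul_I
    linear_combination (-(Real.pi : ℂ)) * this
  rw [h2] at h1
  exact (isAlgebraic_algebraMap_iff (algebraMap ℝ ℂ).injective).mp h1

lemma aeval_ne {G : Polynomial ℤ} (hG : G ≠ 0) : Polynomial.aeval mu G ≠ 0 := by
  intro h
  apply mu_transcendental
  refine ⟨G.map (Int.castRingHom ℚ), ?_, ?_⟩
  · intro h0
    apply hG
    exact (Polynomial.map_injective _ (RingHom.injective_int _)) (by rw [h0, Polynomial.map_zero])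
  · rw [← h]
    rw [Polynomial.aeval_def, Polynomial.aeval_def, Polynomial.eval₂_map]
    congr 1

/-- the values of the polynomials of bounded degree and height are bounded from below -/
lemma poly_low (B : ℕ) : ∃ c0 : ℝ, 0 < c0 ∧ ∀ G : Polynomial ℤ, G.natDegree ≤ B →
    (∀ n, |G.coeff n| ≤ (B : ℤ)) → G ≠ 0 → c0 ≤ ‖Polynomial.aeval mu G‖ := by
  have hfin : {G : Polynomial ℤ | G.natDegree ≤ B ∧ ∀ n, |G.coeff n| ≤ (B : ℤ)}.Finite := by
    have h1 : Set.Finite (Set.pi Set.univ fun _ : Fin (B + 1) => Set.Icc (-(B : ℤ)) B) :=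
      Set.Finite.pi fun _ => Set.finite_Icc _ _
    refine Set.Finite.of_finite_image (f := fun G : Polynomial ℤ => fun i : Fin (B + 1) =>
      G.coeff i) (h1.subset ?_) ?_
    · rintro _ ⟨G, ⟨_, hG2⟩, rfl⟩
      rw [Set.mem_pi]
      intro i _
      exact abs_le.1 (hG2 i)
    · intro G hG G' hG' h
      ext n
      by_cases hn : n ≤ B
      · exact congrFun h ⟨n, by omega⟩
      · rw [Polynomial.coeff_eq_zero_of_natDegree_lt (by have := hG.1; omega),
          Polynomial.coeff_eq_zero_of_natDegree_lt (by have := hG'.1; omega)]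
  set F := hfin.toFinset.filter (fun G => G ≠ 0) with hF
  by_cases hne : F.Nonempty
  · obtain ⟨G0, hG0, hmin⟩ := F.exists_min_image (fun G => ‖Polynomial.aeval mu G‖) hne
    rw [hF, mem_filter] at hG0
    refine ⟨‖Polynomial.aeval mu G0‖, norm_pos_iff.2 (aeval_ne hG0.2), fun G h1 h2 h3 => ?_⟩
    apply hmin
    rw [hF, mem_filter, Set.Finite.mem_toFinset]
    exact ⟨⟨h1, h2⟩, h3⟩
  · refine ⟨1, one_pos, fun G h1 h2 h3 => ?_⟩
    exact absurd ⟨G, by rw [hF, mem_filter, Set.Finite.mem_toFinset]; exact ⟨⟨h1, h2⟩, h3⟩⟩ hne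

/-- **Linearly many multiple zeta values of depth `R + 1 ≥ 2` and the powers of `2 π i`.** -/
theorem main (R : ℕ) (hR : 1 ≤ R) (B κ : ℕ) : ∃ (δ : ℝ) (C P : ℕ), 0 < δ ∧ 0 < C ∧
    ∀ (N W p : ℕ) (t : ℕ → Fin R → ℕ) (c : ℕ → ℤ) (G : Polynomial ℤ), P ≤ N →
      N ≤ p → p ≤ κ * N → (∀ i ≤ W, ∀ k, N ≤ t i k ∧ t i k ≤ κ * N) → (W : ℝ) ≤ δ * N →
      (∀ i ≤ W, ∀ i' ≤ W, ∀ k, t i k ≤ t i' k + W) → (∀ i ≤ W, |c i| ≤ (B : ℤ)) →
      G.natDegree ≤ B → (∀ n, |G.coeff n| ≤ (B : ℤ)) → (G ≠ 0 ∨ ∃ i ≤ W, c i ≠ 0) →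
      1 / (C : ℝ) ^ N < ‖((∑ i ∈ range (W + 1), (c i : ℝ) * mzF R (Fin.cons (p + i) (t i)) : ℝ) : ℂ) +
        Polynomial.aeval mu G‖ := by
  obtain ⟨l, hl1, hl⟩ := Nat.exists_infinite_primes (max (R + 1) (B + 1))
  rw [max_le_iff] at hl1
  obtain ⟨δ, hδ, hδ1, P, h⟩ := comb R l hl hl1.1 B (Nat.cast_nonneg _) κ
  obtain ⟨c0, hc0, hpoly⟩ := poly_low B
  obtain ⟨P1, hP1⟩ := ev_small (B * (2 * CC R * ((R : ℝ) + 1) ^ 2) / c0) (Real.log 2)
    (by positivity) (Real.log_pos one_lt_two)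
  obtain ⟨P2, hP2⟩ := ev_small (1 / c0) (Real.log 2) (by positivity) (Real.log_pos one_lt_two)
  set C0 := 4 * l ^ κ * (R + 1) ^ (R * κ) with hC0
  have hC0p : 4 ≤ C0 := by
    have h1 : 1 ≤ l ^ κ := Nat.one_le_pow _ _ hl.pos
    have h2 : 1 ≤ (R + 1) ^ (R * κ) := Nat.one_le_pow _ _ (by omega)
    calc 4 = 4 * 1 * 1 := by norm_num
      _ ≤ C0 := by rw [hC0]; gcongr
  refine ⟨δ, C0 + 1, max P (max P1 (max P2 2)), hδ, by omega, ?_⟩
  intro N W p t c G hP hNp hpN ht hW htt hc hG1 hG2 hne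
  simp only [max_le_iff] at hP
  obtain ⟨hP, hP1', hP2', hN2⟩ := hP
  have hcR : ∀ i ≤ W, |(c i : ℝ)| ≤ (B : ℝ) := fun i hi => by exact_mod_cast hc i hi
  have hexp : Real.exp (-(Real.log 2 * N)) = 1 / 2 ^ N := by
    rw [Real.exp_neg, mul_comm, Real.exp_nat_mul, Real.exp_log two_pos, one_div]
  have hCN : 1 / ((C0 + 1 : ℕ) : ℝ) ^ N ≤ 1 / 2 ^ N := by
    apply one_div_le_one_div_of_le (by positivity)
    gcongr
    have : (4 : ℝ) ≤ C0 := by exact_mod_cast hC0p
    push_cast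
    linarith
  by_cases hG : G = 0
  · rw [hG, map_zero, add_zero, Complex.norm_real, Real.norm_eq_abs]
    have hne' : ∃ i ≤ W, c i ≠ 0 := hne.resolve_left fun h => h hG
    have h1 := h N W p t c hP hNp hpN ht hW htt hcR (fun i hi => (hcR i hi).trans_lt (by
      have : B + 1 ≤ l := hl1.2
      have h2 : (B : ℝ) + 1 ≤ l := by exact_mod_cast this
      linarith)) hne'
    refine lt_of_lt_of_le ?_ h1
    apply one_div_lt_one_div_of_lt (by positivity)
    apply pow_lt_pow_left₀ _ (by positivity) (by omega)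
    push_cast
    linarith
  · have h1 := hpoly G hG1 hG2 hG
    set Λ := ∑ i ∈ range (W + 1), (c i : ℝ) * mzF R (Fin.cons (p + i) (t i)) with hΛ
    have hW1 : (W : ℝ) ≤ N := by
      have := hW.trans (mul_le_mul_of_nonneg_right hδ1 (Nat.cast_nonneg _))
      rwa [one_mul] at this
    have h2 : |Λ| ≤ c0 / 4 := by
      have e1 : ∀ i ∈ range (W + 1), |(c i : ℝ) * mzF R (Fin.cons (p + i) (t i))| ≤
          B * (2 * CC R * ((R : ℝ) + 1) ^ 2 / 2 ^ N) := by
        intro i hi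
        rw [mem_range] at hi
        rw [abs_mul]
        have e2 : ∀ k, N ≤ (Fin.cons (p + i) (t i) : Fin (R + 1) → ℕ) k := by
          intro k
          refine Fin.cases ?_ (fun k => ?_) k
          · rw [Fin.cons_zero]; omega
          · rw [Fin.cons_succ]; exact (ht i (by omega) k).1
        have e3 := mzF_le hN2 e2
        have e4 : (2 : ℝ) ^ N ≤ ((R : ℝ) + 1) ^ N := by
          have : (1 : ℝ) ≤ R := by exact_mod_cast hR
          gcongr
          linarith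
        refine mul_le_mul (hcR i (by omega)) (e3.trans ?_) (abs_nonneg _) (Nat.cast_nonneg _)
        gcongr
      rw [hΛ]
      refine (abs_sum_le_sum_abs _ _).trans ((sum_le_sum e1).trans ?_)
      rw [sum_const, card_range, nsmul_eq_mul]
      have e5 := hP1 N (by exact_mod_cast hP1')
      rw [hexp] at e5
      have e6 : B * (2 * CC R * ((R : ℝ) + 1) ^ 2) / c0 * ((N : ℝ) + 1) * (1 / 2 ^ N) =
          (B * (2 * CC R * ((R : ℝ) + 1) ^ 2) * ((N : ℝ) + 1) / 2 ^ N) / c0 := by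
        field_simp
      rw [e6, div_le_iff₀ hc0] at e5
      calc ((W + 1 : ℕ) : ℝ) * (B * (2 * CC R * ((R : ℝ) + 1) ^ 2 / 2 ^ N))
          ≤ ((N : ℝ) + 1) * (B * (2 * CC R * ((R : ℝ) + 1) ^ 2 / 2 ^ N)) := by
            gcongr
            push_cast
            linarith
        _ = B * (2 * CC R * ((R : ℝ) + 1) ^ 2) * ((N : ℝ) + 1) / 2 ^ N := by ring
        _ ≤ 1 / 4 * c0 := e5
        _ = c0 / 4 := by ring
    have h3 : 1 / (2 : ℝ) ^ N ≤ c0 / 4 := by
      have e5 := hP2 N (by exact_mod_cast hP2')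
      rw [hexp] at e5
      have e6 : 1 / c0 * ((N : ℝ) + 1) * (1 / 2 ^ N) = (((N : ℝ) + 1) / 2 ^ N) / c0 := by
        field_simp
      rw [e6, div_le_iff₀ hc0] at e5
      calc 1 / (2 : ℝ) ^ N ≤ ((N : ℝ) + 1) / 2 ^ N := by
            gcongr
            linarith [Nat.cast_nonneg (α := ℝ) N]
        _ ≤ 1 / 4 * c0 := e5
        _ = c0 / 4 := by ring
    have h4 : ‖Polynomial.aeval mu G‖ ≤ ‖((Λ : ℝ) : ℂ) + Polynomial.aeval mu G‖ + ‖((Λ : ℝ) : ℂ)‖ := by
      have e1 : Polynomial.aeval mu G = (((Λ : ℝ) : ℂ) + Polynomial.aeval mu G) - ((Λ : ℝ) : ℂ) := by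
        ring
      calc ‖Polynomial.aeval mu G‖ = ‖(((Λ : ℝ) : ℂ) + Polynomial.aeval mu G) - ((Λ : ℝ) : ℂ)‖ := by
            rw [← e1]
        _ ≤ _ := norm_sub_le _ _
    rw [Complex.norm_real, Real.norm_eq_abs] at h4
    linarith

end Pool.Agent.D0H51.DR
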